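import Pool.Agent.helper82.KN.Spec

set_option autoImplicit false

open Finset Polynomial

namespace Pool.Agent.KN

/-- the values of the entries of `M` -/
theorem LC2_val (hLV3 : LV3_stmt) {V : Type} [Fintype V] [DecidableEq V] {A M : Matrix V V ℤ}
    (h : LData A M) (u v : V) : (u = v ∧ M u v = 12) ∨ (u ≠ v ∧ A u v = 1 ∧ M u v = -6) ∨
      (u ≠ v ∧ A u v = 0 ∧ (M u v = -4 ∨ M u v = 0 ∨ M u v = 2 ∨ M u v = 4 ∨ M u v = 6)) := by
  by_cases huv : u = v
  · left
    exact ⟨huv, by rw [← huv]; exact h.mdiag u⟩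
  · rcases h.zo u v with h0 | h0
    · right; right
      exact ⟨huv, h0, hLV3 V A M h u v huv h0⟩
    · right; left
      exact ⟨huv, h0, h.edge u v h0⟩

theorem LC2_nj {V : Type} [Fintype V] [DecidableEq V] (M : Matrix V V ℤ) (u : V) (j : ℤ) :
    (nj M u j : ℤ) = ∑ v, if M u v = j then (1 : ℤ) else 0 := by
  unfold nj
  rw [Finset.card_filter]
  push_cast
  rfl

/-- LC2 -/
theorem LC2 (hLV3 : LV3_stmt) (hLC1 : LC1_stmt) : LC2_stmt := by
  intro V _ _ A M h u
  have hval := LC2_val hLV3 h u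
  have e1 := hLC1 V A M h u
  -- number of the entries 12
  have n12 : nj M u 12 = 1 := by
    unfold nj
    rw [Finset.card_eq_one]
    refine ⟨u, ?_⟩
    ext v
    simp only [mem_filter, mem_univ, true_and, mem_singleton]
    rcases hval v with ⟨h1, h2⟩ | ⟨h1, h2, h3⟩ | ⟨h1, h2, h3⟩
    · exact ⟨fun _ => h1.symm, fun _ => h2⟩
    · constructor
      · intro h4
        omega
      · intro h4
        exact absurd h4.symm h1
    · constructor
      · intro h4
        omega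
      · intro h4
        exact absurd h4.symm h1
  -- number of the entries -6
  have n6 : (nj M u (-6) : ℤ) = 20 := by
    rw [LC2_nj, ← h.row u]
    refine Finset.sum_congr rfl fun v _ => ?_
    rcases hval v with ⟨h1, h2⟩ | ⟨h1, h2, h3⟩ | ⟨h1, h2, h3⟩
    · rw [h2, ← h1, h.diag u]
      norm_num
    · rw [h2, h3]
      norm_num
    · rw [h2, if_neg (by omega)]
  -- the three sums
  have s0 : (84 : ℤ) = nj M u 12 + nj M u (-6) + nj M u (-4) + nj M u 0 + nj M u 2 + nj M u 4 +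
      nj M u 6 := by
    have hc : (84 : ℤ) = ∑ _v : V, (1 : ℤ) := by
      rw [Finset.sum_const, Finset.card_univ, h.card]
      norm_num
    rw [hc]
    simp only [LC2_nj]
    simp only [← Finset.sum_add_distrib]
    refine Finset.sum_congr rfl fun v _ => ?_
    rcases hval v with ⟨h1, h2⟩ | ⟨h1, h2, h3⟩ | ⟨h1, h2, h3 | h3 | h3 | h3 | h3⟩
    · rw [h2]; norm_num
    all_goals rw [h3]; norm_num
  have s1 : ∑ v, M u v = 12 * (nj M u 12 : ℤ) + (-6) * nj M u (-6) + (-4) * nj M u (-4) +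
      2 * nj M u 2 + 4 * nj M u 4 + 6 * nj M u 6 := by
    simp only [LC2_nj, Finset.mul_sum]
    simp only [← Finset.sum_add_distrib]
    refine Finset.sum_congr rfl fun v _ => ?_
    rcases hval v with ⟨h1, h2⟩ | ⟨h1, h2, h3⟩ | ⟨h1, h2, h3 | h3 | h3 | h3 | h3⟩
    · rw [h2]; norm_num
    all_goals rw [h3]; norm_num
  have s2 : ∑ v, M u v ^ 2 = 144 * (nj M u 12 : ℤ) + 36 * nj M u (-6) + 16 * nj M u (-4) +
      4 * nj M u 2 + 16 * nj M u 4 + 36 * nj M u 6 := by
    simp only [LC2_nj, Finset.mul_sum]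
    simp only [← Finset.sum_add_distrib]
    refine Finset.sum_congr rfl fun v _ => ?_
    rcases hval v with ⟨h1, h2⟩ | ⟨h1, h2, h3⟩ | ⟨h1, h2, h3 | h3 | h3 | h3 | h3⟩
    · rw [h2]; norm_num
    all_goals rw [h3]; norm_num
  have n6' : nj M u (-6) = 20 := by exact_mod_cast n6
  rw [h.mrow u] at s1
  rw [h.msq u] at s2
  rw [n12, n6'] at s0 s1 s2
  refine ⟨nj M u 4 / 15, ?_, ?_, ?_, ?_, ?_, ?_, n6', n12⟩ <;> omega

end Pool.Agent.KN
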