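import Pool.Agent.helper82.KN.Spec

set_option autoImplicit false

open Finset Polynomial

namespace Pool.Agent.KN

/-- the values of the entries of `M` -/
theorem LC3_val (hLV3 : LV3_stmt) {V : Type} [Fintype V] [DecidableEq V] {A M : Matrix V V ℤ}
    (h : LData A M) (u v : V) : M u v = 12 ∨ M u v = -6 ∨ M u v = -4 ∨ M u v = 0 ∨ M u v = 2 ∨
      M u v = 4 ∨ M u v = 6 := by
  by_cases huv : u = v
  · left
    rw [← huv]
    exact h.mdiag u
  · rcases h.zo u v with h0 | h0
    · have := hLV3 V A M h u v huv h0
      tauto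
    · have := h.edge u v h0
      tauto

/-- no entry -/
theorem LC3_none {V : Type} [Fintype V] [DecidableEq V] {M : Matrix V V ℤ} {u : V} {j : ℤ}
    (h : nj M u j = 0) (v : V) : M u v ≠ j := by
  intro hc
  unfold nj at h
  rw [Finset.card_eq_zero] at h
  have : v ∈ univ.filter (fun v => M u v = j) := Finset.mem_filter.mpr ⟨Finset.mem_univ _, hc⟩
  rw [h] at this
  simp at this

/-- LC3 -/
theorem LC3 (hLC2 : LC2_stmt) (hLV3 : LV3_stmt) : LC3_stmt := by
  intro V _ _ A M h
  obtain ⟨p, hp⟩ := h.par
  have hno : ∀ u w, A u w = 1 → nj M u (-4) = 7 → nj M w (-4) = 0 → False := by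
    intro u w huw h7 h0
    obtain ⟨s, hs, a1, a2, a3, a4, a5, a6, a7⟩ := hLC2 V A M h u
    obtain ⟨t, ht, b1, b2, b3, b4, b5, b6, b7⟩ := hLC2 V A M h w
    obtain ⟨q, hq, c1, c2, c3, c4, c5, c6, c7⟩ := hLC2 V A M h (p u w)
    have hs1 : s = 1 := by omega
    have ht0 : t = 0 := by omega
    subst hs1
    subst ht0
    have hsum := (hp u w huw).2.2.2.2
    have hsub : univ.filter (fun x => M u x = -4) ∪ univ.filter (fun x => M u x = 2) ⊆
        univ.filter (fun x => M (p u w) x = 4) := by
      intro x hx
      have hx' : M u x = -4 ∨ M u x = 2 := by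
        rcases Finset.mem_union.mp hx with hx | hx
        · exact Or.inl (Finset.mem_filter.mp hx).2
        · exact Or.inr (Finset.mem_filter.mp hx).2
      refine Finset.mem_filter.mpr ⟨Finset.mem_univ _, ?_⟩
      have e1 := LC3_none (by simpa using b1 : nj M w (-4) = 0) x
      have e2 := LC3_none (by simpa using b3 : nj M w 2 = 0) x
      have e3 := LC3_none (by simpa using b4 : nj M w 4 = 0) x
      have e4 := LC3_val hLV3 h w x
      have e5 := LC3_val hLV3 h (p u w) x
      have e6 := hsum x
      omega
    have hdis : Disjoint (univ.filter (fun x => M u x = -4)) (univ.filter (fun x => M u x = 2)) := by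
      rw [Finset.disjoint_left]
      intro x hx1 hx2
      have e1 := (Finset.mem_filter.mp hx1).2
      have e2 := (Finset.mem_filter.mp hx2).2
      omega
    have hcard := Finset.card_le_card hsub
    rw [Finset.card_union_of_disjoint hdis] at hcard
    have k1 : (univ.filter (fun x => M u x = -4)).card = 7 := h7
    have k2 : (univ.filter (fun x => M u x = 2)).card = 20 * 1 := a3
    have k3 : (univ.filter (fun x => M (p u w) x = 4)).card = 15 * q := c4
    rw [k1, k2, k3] at hcard
    omega
  have h07 : ∀ u, nj M u (-4) = 0 ∨ nj M u (-4) = 7 := by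
    intro u
    obtain ⟨s, hs, a1, -⟩ := hLC2 V A M h u
    omega
  have hedge : ∀ u w, A u w ≠ 0 → nj M u (-4) = nj M w (-4) := by
    intro u w huw
    have h1 : A u w = 1 := by
      rcases h.zo u w with h0 | h0
      · exact absurd h0 huw
      · exact h0
    have h2 : A w u = 1 := by
      rw [h.symm]
      exact h1
    rcases h07 u with h3 | h3 <;> rcases h07 w with h4 | h4
    · rw [h3, h4]
    · exact (hno w u h2 h4 h3).elim
    · exact (hno u w h1 h3 h4).elim
    · rw [h3, h4]
  have h2step : ∀ u w, (A * A) u w ≠ 0 → nj M u (-4) = nj M w (-4) := by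
    intro u w huw
    rw [Matrix.mul_apply] at huw
    obtain ⟨x, -, hx⟩ := Finset.exists_ne_zero_of_sum_ne_zero huw
    exact (hedge u x (left_ne_zero_of_mul hx)).trans (hedge x w (right_ne_zero_of_mul hx))
  have h3step : ∀ u w, (A * A * A) u w ≠ 0 → nj M u (-4) = nj M w (-4) := by
    intro u w huw
    rw [Matrix.mul_apply] at huw
    obtain ⟨x, -, hx⟩ := Finset.exists_ne_zero_of_sum_ne_zero huw
    exact (h2step u x (left_ne_zero_of_mul hx)).trans (hedge x w (right_ne_zero_of_mul hx))
  by_cases hall : ∀ u, nj M u (-4) = 0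
  · exact Or.inl hall
  · push Not at hall
    obtain ⟨u, hu⟩ := hall
    have hu7 : nj M u (-4) = 7 := by
      rcases h07 u with h1 | h1
      · exact absurd h1 hu
      · exact h1
    right
    intro v
    by_cases huv : u = v
    · rw [← huv]
      exact hu7
    · rcases h.conn u v huv with h1 | h1 | h1
      · rw [← hedge u v h1]
        exact hu7
      · rw [← h2step u v h1]
        exact hu7
      · rw [← h3step u v h1]
        exact hu7

end Pool.Agent.KN
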