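import Pool.Agent.helper82.KN.Spec

set_option autoImplicit false

open Finset Polynomial

namespace Pool.Agent.KN

/-- the number of common neighbours as a sum over the neighbours of `v` -/
theorem LV0_mu {V : Type} [Fintype V] [DecidableEq V] {A M : Matrix V V ℤ} (h : LData A M)
    (u v : V) (huv : u ≠ v) (h0 : A u v = 0) :
    M u v + 4 = ∑ w ∈ univ.filter (fun w => A v w = 1), A u w := by
  have h1 := h.sq u v
  rw [h0, if_neg huv, Matrix.mul_apply] at h1
  have h2 : ∑ w ∈ univ.filter (fun w => A v w = 1), A u w = ∑ w, A u w * A w v := by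
    rw [Finset.sum_filter]
    refine Finset.sum_congr rfl fun w _ => ?_
    rw [h.symm w v]
    rcases h.zo v w with h3 | h3
    · rw [h3]
      simp
    · rw [h3]
      simp
  rw [h2, h1]
  ring

/-- the neighbours of `v`: 20 of them -/
theorem LV0_card {V : Type} [Fintype V] [DecidableEq V] {A M : Matrix V V ℤ} (h : LData A M)
    (v : V) : ((univ.filter (fun w => A v w = 1)).card : ℤ) = 20 := by
  rw [← h.row v, Finset.card_filter]
  push_cast
  refine Finset.sum_congr rfl fun w _ => ?_
  rcases h.zo v w with h3 | h3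
  · rw [h3]
    simp
  · rw [h3]
    simp

/-- LV0 -/
theorem LV0 : LV0_stmt := by
  intro V _ _ A M h u v huv h0
  have hmu := LV0_mu h u v huv h0
  have hpos : 0 ≤ ∑ w ∈ univ.filter (fun w => A v w = 1), A u w := by
    refine Finset.sum_nonneg fun w _ => ?_
    rcases h.zo u w with h3 | h3 <;> rw [h3] <;> norm_num
  refine ⟨by linarith, ?_⟩
  obtain ⟨p, hp⟩ := h.par
  have hle : ∀ w ∈ univ.filter (fun w => A v w = 1), A u w + A u (p v w) ≤ 1 := by
    intro w hw
    have hvw : A v w = 1 := (Finset.mem_filter.mp hw).2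
    obtain ⟨e1, e2, -, -, -⟩ := hp v w hvw
    rcases h.zo u w with h3 | h3
    · rcases h.zo u (p v w) with h4 | h4 <;> rw [h3, h4] <;> norm_num
    · rcases h.zo u (p v w) with h4 | h4
      · rw [h3, h4]
        norm_num
      · exfalso
        obtain ⟨-, -, -, f4, -⟩ := hp w (p v w) e2
        have g1 := f4 u (by rw [h.symm]; exact h3) (by rw [h.symm]; exact h4)
        have g2 := f4 v (by rw [h.symm]; exact hvw) (by rw [h.symm]; exact e1)
        exact huv (g1.trans g2.symm)
  have hinv : ∑ w ∈ univ.filter (fun w => A v w = 1), A u (p v w) =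
      ∑ w ∈ univ.filter (fun w => A v w = 1), A u w := by
    refine Finset.sum_nbij' (p v) (p v) ?_ ?_ ?_ ?_ ?_
    · intro w hw
      exact Finset.mem_filter.mpr ⟨Finset.mem_univ _, (hp v w (Finset.mem_filter.mp hw).2).1⟩
    · intro w hw
      exact Finset.mem_filter.mpr ⟨Finset.mem_univ _, (hp v w (Finset.mem_filter.mp hw).2).1⟩
    · intro w hw
      exact (hp v w (Finset.mem_filter.mp hw).2).2.2.1
    · intro w hw
      exact (hp v w (Finset.mem_filter.mp hw).2).2.2.1
    · intro w _
      rfl
  have hsum := Finset.sum_le_sum hle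
  rw [Finset.sum_add_distrib, hinv, Finset.sum_const, nsmul_eq_mul, LV0_card h v] at hsum
  linarith

end Pool.Agent.KN
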