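import Pool.Agent.helper82.KN.Spec

set_option autoImplicit false

open Finset Polynomial

namespace Pool.Agent.KN

/-- LV1 -/
theorem LV1 (hLV0 : LV0_stmt) : LV1_stmt := by
  intro V _ _ A M h u v w huv h0 huw hvw
  obtain ⟨p, hp⟩ := h.par
  obtain ⟨e1, e2, -, -, e5⟩ := hp v w hvw
  have hz0 : A u (p v w) = 0 := by
    rcases h.zo u (p v w) with h4 | h4
    · exact h4
    · exfalso
      obtain ⟨-, -, -, f4, -⟩ := hp w (p v w) e2
      have g1 := f4 u (by rw [h.symm]; exact huw) (by rw [h.symm]; exact h4)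
      have g2 := f4 v (by rw [h.symm]; exact hvw) (by rw [h.symm]; exact e1)
      exact huv (g1.trans g2.symm)
  have hzu : p v w ≠ u := by
    intro hc
    rw [hc, h.symm, h0] at e1
    norm_num at e1
  have h5 := e5 u
  have h6 : M w u = -6 := h.edge w u (by rw [h.symm]; exact huw)
  have h7 : M u (p v w) = 6 - M u v := by
    rw [h.msymm u (p v w), h.msymm u v]
    linarith
  have h8 := (hLV0 V A M h u (p v w) (Ne.symm hzu) hz0).2
  exact ⟨by linarith, p v w, hzu, hz0, e1, e2, h7⟩

end Pool.Agent.KN
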