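import Pool.Agent.helper82.KN.Spec

set_option autoImplicit false

open Finset Polynomial

namespace Pool.Agent.KN

/-- the number of common neighbours as a sum over the neighbours of `v` -/
theorem LV2_mu {V : Type} [Fintype V] [DecidableEq V] {A M : Matrix V V ℤ} (h : LData A M)
    (u v : V) (huv : u ≠ v) (h0 : A u v = 0) :
    M u v + 4 = ∑ w ∈ univ.filter (fun w => A v w = 1), A u w := by
  have h1 := h.sq u v
  rw [h0, if_neg huv, Matrix.mul_apply] at h1
  have h2 : ∑ w ∈ univ.filter (fun w => A v w = 1), A u w = ∑ w, A u w * A w v := by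
    rw [Finset.sum_filter]
    refine Finset.sum_congr rfl fun w _ => ?_
    rw [h.symm w v]
    rcases h.zo v w with h3 | h3
    · rw [h3]
      simp
    · rw [h3]
      simp
  rw [h2, h1]
  ring

/-- the neighbours of `v`: 20 of them -/
theorem LV2_card {V : Type} [Fintype V] [DecidableEq V] {A M : Matrix V V ℤ} (h : LData A M)
    (v : V) : ((univ.filter (fun w => A v w = 1)).card : ℤ) = 20 := by
  rw [← h.row v, Finset.card_filter]
  push_cast
  refine Finset.sum_congr rfl fun w _ => ?_
  rcases h.zo v w with h3 | h3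
  · rw [h3]
    simp
  · rw [h3]
    simp

/-- no common neighbour or `0 ≤ M u x` -/
theorem LV2_dich (hLV1 : LV1_stmt) {V : Type} [Fintype V] [DecidableEq V] {A M : Matrix V V ℤ}
    (h : LData A M) (u x : V) (hux : u ≠ x) (h0 : A u x = 0) : M u x = -4 ∨ 0 ≤ M u x := by
  by_cases hc : ∃ y, A u y = 1 ∧ A x y = 1
  · obtain ⟨y, hy1, hy2⟩ := hc
    exact Or.inr (hLV1 V A M h u x y hux h0 hy1 hy2).1
  · left
    push Not at hc
    have h1 := LV2_mu h u x hux h0
    have h2 : ∑ w ∈ univ.filter (fun w => A x w = 1), A u w = 0 := by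
      refine Finset.sum_eq_zero fun w hw => ?_
      have hxw : A x w = 1 := (Finset.mem_filter.mp hw).2
      rcases h.zo u w with h3 | h3
      · exact h3
      · exact absurd hxw (hc w h3)
    linarith

/-- LV2 -/
theorem LV2 (hLV0 : LV0_stmt) (hLV1 : LV1_stmt) : LV2_stmt := by
  intro V _ _ A M h u v huv h0 hpos hlt
  have hmu := LV2_mu h u v huv h0
  obtain ⟨p, hp⟩ := h.par
  have hle : ∀ w ∈ univ.filter (fun w => A v w = 1),
      A u w + A u (p v w) = 1 ∨ (A u w = 0 ∧ A u (p v w) = 0) := by
    intro w hw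
    have hvw : A v w = 1 := (Finset.mem_filter.mp hw).2
    obtain ⟨e1, e2, -, -, -⟩ := hp v w hvw
    rcases h.zo u w with h3 | h3
    · rcases h.zo u (p v w) with h4 | h4
      · exact Or.inr ⟨h3, h4⟩
      · left
        rw [h3, h4]
        norm_num
    · rcases h.zo u (p v w) with h4 | h4
      · left
        rw [h3, h4]
        norm_num
      · exfalso
        obtain ⟨-, -, -, f4, -⟩ := hp w (p v w) e2
        have g1 := f4 u (by rw [h.symm]; exact h3) (by rw [h.symm]; exact h4)
        have g2 := f4 v (by rw [h.symm]; exact hvw) (by rw [h.symm]; exact e1)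
        exact huv (g1.trans g2.symm)
  have hinv : ∑ w ∈ univ.filter (fun w => A v w = 1), A u (p v w) =
      ∑ w ∈ univ.filter (fun w => A v w = 1), A u w := by
    refine Finset.sum_nbij' (p v) (p v) ?_ ?_ ?_ ?_ ?_
    · intro w hw
      exact Finset.mem_filter.mpr ⟨Finset.mem_univ _, (hp v w (Finset.mem_filter.mp hw).2).1⟩
    · intro w hw
      exact Finset.mem_filter.mpr ⟨Finset.mem_univ _, (hp v w (Finset.mem_filter.mp hw).2).1⟩
    · intro w hw
      exact (hp v w (Finset.mem_filter.mp hw).2).2.2.1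
    · intro w hw
      exact (hp v w (Finset.mem_filter.mp hw).2).2.2.1
    · intro w _
      rfl
  obtain ⟨w, hw, hw1, hw2⟩ : ∃ w ∈ univ.filter (fun w => A v w = 1),
      A u w = 0 ∧ A u (p v w) = 0 := by
    by_contra hc
    push Not at hc
    have h1 : ∀ w ∈ univ.filter (fun w => A v w = 1), A u w + A u (p v w) = 1 := by
      intro w hw
      rcases hle w hw with h2 | h2
      · exact h2
      · exact absurd h2.2 (hc w hw h2.1)
    have hsum := Finset.sum_congr rfl h1
    rw [Finset.sum_add_distrib, hinv, Finset.sum_const, nsmul_eq_mul, LV2_card h v] at hsum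
    linarith
  have hvw : A v w = 1 := (Finset.mem_filter.mp hw).2
  obtain ⟨e1, e2, -, -, e5⟩ := hp v w hvw
  have hwu : w ≠ u := by
    intro hc
    rw [hc, h.symm, h0] at hvw
    norm_num at hvw
  have hzu : p v w ≠ u := by
    intro hc
    rw [hc, h.symm, h0] at e1
    norm_num at e1
  have h5 := e5 u
  rw [h.msymm v u, h.msymm w u, h.msymm (p v w) u] at h5
  rcases LV2_dich hLV1 h u w (Ne.symm hwu) hw1 with h6 | h6
  · exact ⟨w, p v w, hwu, hzu, hvw, e1, hw1, hw2, h6, by linarith⟩
  · rcases LV2_dich hLV1 h u (p v w) (Ne.symm hzu) hw2 with h7 | h7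
    · exact ⟨p v w, w, hzu, hwu, e1, hvw, hw2, hw1, h7, by linarith⟩
    · exfalso
      linarith

end Pool.Agent.KN
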