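import Pool.Agent.helper82.KN.Spec

set_option autoImplicit false

open Finset Polynomial

namespace Pool.Agent.KN

/-- no common neighbour or `0 ≤ M u x` -/
theorem LV3_dich (hLV1 : LV1_stmt) {V : Type} [Fintype V] [DecidableEq V] {A M : Matrix V V ℤ}
    (h : LData A M) (u x : V) (hux : u ≠ x) (h0 : A u x = 0) : M u x = -4 ∨
      (0 ≤ M u x ∧ ∃ y, A u y = 1 ∧ A x y = 1) := by
  by_cases hc : ∃ y, A u y = 1 ∧ A x y = 1
  · obtain ⟨y, hy1, hy2⟩ := hc
    exact Or.inr ⟨(hLV1 V A M h u x y hux h0 hy1 hy2).1, y, hy1, hy2⟩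
  · left
    push Not at hc
    have h1 := h.sq u x
    rw [h0, if_neg hux, Matrix.mul_apply] at h1
    have h2 : ∑ w, A u w * A w x = 0 := by
      refine Finset.sum_eq_zero fun w _ => ?_
      rcases h.zo u w with h3 | h3
      · rw [h3, zero_mul]
      · rcases h.zo x w with h4 | h4
        · rw [h.symm w x, h4, mul_zero]
        · exact absurd h4 (hc w h3)
    linarith

/-- LV3 -/
theorem LV3 (hLV0 : LV0_stmt) (hLV1 : LV1_stmt) (hLV2 : LV2_stmt) : LV3_stmt := by
  intro V _ _ A M h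
  have h5 : ∀ u v, u ≠ v → A u v = 0 → M u v ≠ 5 := by
    intro u v huv h0 hc
    obtain ⟨w, z, -, hzu, -, -, -, hz, -, hM⟩ := hLV2 V A M h u v huv h0 (by omega) (by omega)
    rcases LV3_dich hLV1 h u z (Ne.symm hzu) hz with h1 | h1
    · omega
    · have := h1.1
      omega
  have h1 : ∀ u v, u ≠ v → A u v = 0 → M u v ≠ 1 := by
    intro u v huv h0 hc
    rcases LV3_dich hLV1 h u v huv h0 with h2 | ⟨-, y, hy1, hy2⟩
    · omega
    · obtain ⟨-, z, hzu, hz0, -, -, hM⟩ := hLV1 V A M h u v y huv h0 hy1 hy2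
      exact h5 u z (Ne.symm hzu) hz0 (by omega)
  have h3 : ∀ u v, u ≠ v → A u v = 0 → M u v ≠ 3 := by
    intro u v huv h0 hc
    obtain ⟨w, z, -, hzu, -, -, -, hz, -, hM⟩ := hLV2 V A M h u v huv h0 (by omega) (by omega)
    exact h1 u z (Ne.symm hzu) hz (by omega)
  intro u v huv h0
  have e0 := hLV0 V A M h u v huv h0
  have e1 := h1 u v huv h0
  have e3 := h3 u v huv h0
  have e5 := h5 u v huv h0
  rcases LV3_dich hLV1 h u v huv h0 with h2 | ⟨h2, -⟩
  · left
    exact h2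
  · omega

end Pool.Agent.KN
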