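import Pool.Agent.helper82.KN.Spec

set_option autoImplicit false

open Finset Polynomial

namespace Pool.Agent.KN

/-- a sum over a filtered set of a 0-1 condition -/
theorem RD1_ind {V : Type} [Fintype V] (P : V → Prop) [DecidablePred P] (g f : V → ℤ)
    (h : ∀ x, g x = if P x then 1 else 0) : ∑ x ∈ univ.filter P, f x = ∑ x, g x * f x := by
  rw [Finset.sum_filter]
  refine Finset.sum_congr rfl fun x _ => ?_
  rw [h x]
  split_ifs <;> ring

/-- RD1 -/
theorem RD1 (hLC2 : LC2_stmt) (hMPO : MPO_stmt) : RD1_stmt := by
  intro V _ _ A M h h06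
  -- the function r
  have hex : ∀ u v, ∃ t : ℤ, M u v = 6 * t := by
    intro u v
    by_cases huv : u = v
    · exact ⟨2, by rw [← huv, h.mdiag u]; norm_num⟩
    · rcases h.zo u v with h0 | h0
      · rcases h06 u v huv h0 with h1 | h1
        · exact ⟨0, by rw [h1]; norm_num⟩
        · exact ⟨1, by rw [h1]; norm_num⟩
      · exact ⟨-1, by rw [h.edge u v h0]; norm_num⟩
  choose r hr using hex
  have hdiag : ∀ u, r u u = 2 := by
    intro u
    have h1 := h.mdiag u
    rw [hr u u] at h1
    linarith
  have hsymm : ∀ u v, r u v = r v u := by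
    intro u v
    have h1 := h.msymm u v
    rw [hr u v, hr v u] at h1
    linarith
  have hval : ∀ u v, u ≠ v → (A u v = 1 ∧ r u v = -1) ∨ (A u v = 0 ∧ r u v = 0) ∨
      (A u v = 0 ∧ r u v = 1) := by
    intro u v huv
    have h3 := hr u v
    rcases h.zo u v with h0 | h0
    · rcases h06 u v huv h0 with h1 | h1
      · right; left
        exact ⟨h0, by omega⟩
      · right; right
        exact ⟨h0, by omega⟩
    · left
      have := h.edge u v h0
      exact ⟨h0, by omega⟩
  have hA : ∀ u v, A u v = 1 ↔ r u v = -1 := by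
    intro u v
    by_cases huv : u = v
    · subst huv
      rw [h.diag u, hdiag u]
      norm_num
    · rcases hval u v huv with ⟨h1, h2⟩ | ⟨h1, h2⟩ | ⟨h1, h2⟩ <;> rw [h1, h2] <;> norm_num
  -- the indicator functions
  have hAi : ∀ u x, A u x = if r u x = -1 then 1 else 0 := by
    intro u x
    by_cases h1 : r u x = -1
    · rw [if_pos h1]
      exact (hA u x).mpr h1
    · rw [if_neg h1]
      rcases h.zo u x with h0 | h0
      · exact h0
      · exact absurd ((hA u x).mp h0) h1
  have hBi : ∀ u x, r u x - 2 * (if u = x then 1 else 0) + A u x = if r u x = 1 then 1 else 0 := by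
    intro u x
    by_cases hux : u = x
    · subst hux
      rw [hdiag, h.diag]
      norm_num
    · rw [if_neg hux]
      rcases hval u x hux with ⟨h1, h2⟩ | ⟨h1, h2⟩ | ⟨h1, h2⟩ <;> rw [h1, h2] <;> norm_num
  have hsum1 : ∀ u v, ∑ x, r u x * r v x = 21 * r u v := by
    intro u v
    have h1 : (M * M) u v = 126 * M u v := by
      rw [h.mm]
      simp
    rw [Matrix.mul_apply] at h1
    have h2 : ∑ x, M u x * M x v = 36 * ∑ x, r u x * r v x := by
      rw [Finset.mul_sum]
      refine Finset.sum_congr rfl fun x _ => ?_
      rw [hr u x, hr x v, hsymm x v]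
      ring
    rw [h2, hr u v] at h1
    linarith
  have hsum2 : ∀ u z, ∑ x, A u x * r z x = -10 * r z u := by
    intro u z
    have h1 : (A * M) u z = -10 * M u z := by
      rw [h.am]
      simp
    rw [Matrix.mul_apply] at h1
    have h2 : ∑ x, A u x * M x z = 6 * ∑ x, A u x * r z x := by
      rw [Finset.mul_sum]
      refine Finset.sum_congr rfl fun x _ => ?_
      rw [hr x z, hsymm x z]
      ring
    rw [h2, hr u z, hsymm u z] at h1
    linarith
  have hdelta : ∀ u (f : V → ℤ), ∑ x, (if u = x then (1 : ℤ) else 0) * f x = f u := by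
    intro u f
    simp
  have hmulAA : ∀ u v, ∑ x, A u x * A v x = (A * A) u v := by
    intro u v
    rw [Matrix.mul_apply]
    refine Finset.sum_congr rfl fun x _ => ?_
    rw [h.symm x v]
  refine ⟨r, hr, hA, ?_⟩
  constructor
  · exact h.card
  · exact hsymm
  · exact hdiag
  · intro u v huv
    rcases hval u v huv with ⟨h1, h2⟩ | ⟨h1, h2⟩ | ⟨h1, h2⟩
    · exact Or.inl h2
    · exact Or.inr (Or.inl h2)
    · exact Or.inr (Or.inr h2)
  · intro u
    have h1 : ((ad r u).card : ℤ) = 20 := by
      rw [← h.row u, Finset.card_eq_sum_ones]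
      push_cast
      unfold ad
      rw [RD1_ind (fun x => r u x = -1) (A u) (fun _ => 1) (hAi u)]
      simp
    exact_mod_cast h1
  · intro u
    obtain ⟨s, hs, a1, a2, a3, a4, a5, a6, a7⟩ := hLC2 V A M h u
    have h2 : nj M u 2 = 0 := by
      unfold nj
      rw [Finset.card_eq_zero]
      ext x
      simp only [mem_filter, mem_univ, true_and, notMem_empty, iff_false]
      rw [hr u x]
      omega
    have hs0 : s = 0 := by omega
    subst hs0
    have h3 : bd r u = univ.filter (fun v => M u v = 6) := by
      unfold bd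
      ext x
      simp only [mem_filter, mem_univ, true_and]
      rw [hr u x]
      omega
    have h4 : (bd r u).card = nj M u 6 := by
      rw [h3]
      rfl
    rw [h4, a5]
  · exact hsum1
  · intro u z
    unfold ad
    rw [RD1_ind (fun x => r u x = -1) (A u) (fun x => r z x) (hAi u), hsum2 u z]
  · intro u z
    unfold bd
    rw [RD1_ind (fun x => r u x = 1) (fun x => r u x - 2 * (if u = x then 1 else 0) + A u x)
      (fun x => r z x) (hBi u)]
    have h1 : ∑ x, (r u x - 2 * (if u = x then 1 else 0) + A u x) * r z x =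
        ∑ x, r u x * r z x - 2 * ∑ x, (if u = x then (1 : ℤ) else 0) * r z x +
          ∑ x, A u x * r z x := by
      rw [Finset.mul_sum, ← Finset.sum_sub_distrib, ← Finset.sum_add_distrib]
      refine Finset.sum_congr rfl fun x _ => ?_
      ring
    rw [h1, hsum1, hdelta, hsum2, hsymm u z]
    ring
  · intro u v huv
    obtain ⟨p, hp⟩ := h.par
    refine ⟨p u v, fun z => ?_⟩
    have h1 := (hp u v ((hA u v).mpr huv)).2.2.2.2 z
    rw [hr u z, hr v z, hr (p u v) z] at h1
    rw [hsymm z u, hsymm z v, hsymm z (p u v)]
    linarith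
  · intro u v huv
    have hne : u ≠ v := by
      rintro rfl
      rw [hdiag] at huv
      norm_num at huv
    have hA0 : A u v = 0 := by
      rw [hAi, if_neg (by omega)]
    have h1 : ((ad r u ∩ ad r v).card : ℤ) = 10 := by
      have h2 : ad r u ∩ ad r v = univ.filter (fun x => r u x = -1 ∧ r v x = -1) := by
        ext x
        simp only [ad, mem_inter, mem_filter, mem_univ, true_and]
      rw [h2, Finset.card_eq_sum_ones]
      push_cast
      rw [RD1_ind (fun x => r u x = -1 ∧ r v x = -1) (fun x => A u x * A v x) (fun _ => 1)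
        (by
          intro x
          rw [hAi u x, hAi v x]
          split_ifs <;> simp_all)]
      simp only [mul_one]
      rw [hmulAA, h.sq u v, hr u v, huv, hA0, if_neg hne]
      norm_num
    exact_mod_cast h1
  · intro u v huv
    have hne : u ≠ v := by
      rintro rfl
      rw [hdiag] at huv
      norm_num at huv
    have hA0 : A u v = 0 := by
      rw [hAi, if_neg (by omega)]
    have h1 : ((bd r u ∩ bd r v).card : ℤ) = 4 := by
      have h2 : bd r u ∩ bd r v = univ.filter (fun x => r u x = 1 ∧ r v x = 1) := by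
        ext x
        simp only [bd, mem_inter, mem_filter, mem_univ, true_and]
      rw [h2, Finset.card_eq_sum_ones]
      push_cast
      rw [RD1_ind (fun x => r u x = 1 ∧ r v x = 1)
        (fun x => (r u x - 2 * (if u = x then 1 else 0) + A u x) *
          (r v x - 2 * (if v = x then 1 else 0) + A v x)) (fun _ => 1)
        (by
          intro x
          rw [hBi u x, hBi v x]
          split_ifs <;> simp_all)]
      have h3 : ∑ x, (r u x - 2 * (if u = x then 1 else 0) + A u x) *
          (r v x - 2 * (if v = x then 1 else 0) + A v x) * 1 =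
          ∑ x, r u x * r v x - 2 * ∑ x, (if u = x then (1 : ℤ) else 0) * r v x +
          ∑ x, A u x * r v x - 2 * ∑ x, (if v = x then (1 : ℤ) else 0) * r u x +
          4 * ∑ x, (if u = x then (1 : ℤ) else 0) * (if v = x then (1 : ℤ) else 0) -
          2 * ∑ x, (if v = x then (1 : ℤ) else 0) * A u x +
          ∑ x, A v x * r u x - 2 * ∑ x, (if u = x then (1 : ℤ) else 0) * A v x +
          ∑ x, A u x * A v x := by
        simp only [Finset.mul_sum, ← Finset.sum_sub_distrib, ← Finset.sum_add_distrib]
        refine Finset.sum_congr rfl fun x _ => ?_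
        ring
      rw [h3, hsum1, hdelta, hsum2, hdelta, hdelta, hdelta, hsum2, hdelta, hmulAA, h.sq u v,
        hr u v, hsymm v u, huv, h.symm v u, hA0, if_neg hne, if_neg (Ne.symm hne)]
      norm_num
    exact_mod_cast h1
  · intro f
    have h1 := (hMPO V A M h.toMData f).1
    have h2 : ∑ u, ∑ v, f u * f v * M u v = 6 * ∑ u, ∑ v, f u * f v * r u v := by
      rw [Finset.mul_sum]
      refine Finset.sum_congr rfl fun u _ => ?_
      rw [Finset.mul_sum]
      refine Finset.sum_congr rfl fun v _ => ?_
      rw [hr u v]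
      ring
    rw [h2] at h1
    linarith
  · intro f hf z
    have h2 : ∑ u, ∑ v, f u * f v * M u v = 6 * ∑ u, ∑ v, f u * f v * r u v := by
      rw [Finset.mul_sum]
      refine Finset.sum_congr rfl fun u _ => ?_
      rw [Finset.mul_sum]
      refine Finset.sum_congr rfl fun v _ => ?_
      rw [hr u v]
      ring
    rw [hf, mul_zero] at h2
    have h3 := (hMPO V A M h.toMData f).2 h2 z
    have h4 : ∑ u, f u * M z u = 6 * ∑ u, f u * r z u := by
      rw [Finset.mul_sum]
      refine Finset.sum_congr rfl fun u _ => ?_
      rw [hr z u]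
      ring
    rw [h4] at h3
    linarith

end Pool.Agent.KN
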